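import Mathlib

/-!
Binomial ideals and congruences of the free commutative monoid.
-/

set_option autoImplicit false

namespace Pool.Agent.Lib.MP_1df74f_al

open MvPolynomial

variable {σ : Type*} {k : Type*} [Field k] {D : Type*} [AddCommMonoid D]

/-- the binomial `x^u - x^v` -/
noncomputable def bin (k : Type*) [Field k] (u v : σ →₀ ℕ) : MvPolynomial σ k :=
  monomial u 1 - monomial v 1

/-- the toric ideal attached to a monoid homomorphism. -/
noncomputable def toricI (k : Type*) [Field k] (A : (σ →₀ ℕ) →+ D) : Ideal (MvPolynomial σ k) :=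
  RingHom.ker (AddMonoidAlgebra.mapDomainRingHom k A)

theorem map_bin {E : Type*} [AddCommMonoid E] (A : (σ →₀ ℕ) →+ E) (u v : σ →₀ ℕ) :
    AddMonoidAlgebra.mapDomainRingHom k A (bin k u v) =
      AddMonoidAlgebra.single (A u) 1 - AddMonoidAlgebra.single (A v) 1 := by
  unfold bin
  rw [map_sub]
  congr 1
  · exact AddMonoidAlgebra.mapDomain_single
  · exact AddMonoidAlgebra.mapDomain_single

theorem single_sub_single_eq_zero {E : Type*} (x y : E) :
    (AddMonoidAlgebra.single x (1 : k) - AddMonoidAlgebra.single y 1 : AddMonoidAlgebra k E) = 0 ↔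
      x = y := by
  rw [sub_eq_zero]
  exact AddMonoidAlgebra.single_left_inj one_ne_zero

theorem bin_mem_toricI (A : (σ →₀ ℕ) →+ D) (u v : σ →₀ ℕ) :
    bin k u v ∈ toricI k A ↔ A u = A v := by
  unfold toricI
  rw [RingHom.mem_ker, map_bin, single_sub_single_eq_zero]

theorem bin_self (u : σ →₀ ℕ) : bin k u u = 0 := sub_self _

theorem bin_eq_zero (u v : σ →₀ ℕ) : bin k u v = 0 ↔ u = v := by
  unfold bin
  rw [sub_eq_zero, monomial_left_inj one_ne_zero]

theorem neg_bin (u v : σ →₀ ℕ) : -bin k u v = bin k v u := by unfold bin; ring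

theorem bin_add_bin (u v w : σ →₀ ℕ) : bin k u v + bin k v w = bin k u w := by unfold bin; ring

theorem bin_add (u v u' v' : σ →₀ ℕ) :
    bin k (u + u') (v + v') = monomial u' 1 * bin k u v + monomial v 1 * bin k u' v' := by
  unfold bin
  simp only [mul_sub, monomial_mul, one_mul]
  rw [add_comm u u', add_comm v u']
  ring

/-- the only representations of a nonzero binomial. -/
theorem bin_eq_bin {u v p q : σ →₀ ℕ} (huv : u ≠ v) (h : bin k u v = bin k p q) :
    (u = p ∧ v = q) ∨ (u = q ∧ v = p) := by
  classical
  unfold bin at h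
  have hu := congrArg (MvPolynomial.coeff u) h
  have hv := congrArg (MvPolynomial.coeff v) h
  simp only [coeff_sub, coeff_monomial, if_true] at hu hv
  rw [if_neg huv.symm] at hu
  rw [if_neg huv] at hv
  by_cases hp : p = u
  · left
    refine ⟨hp.symm, ?_⟩
    subst hp
    by_contra hq
    rw [if_neg huv, if_neg (Ne.symm hq)] at hv
    simp at hv
  · rw [if_neg hp] at hu
    by_cases hq : q = u
    · right
      refine ⟨hq.symm, ?_⟩
      subst hq
      by_contra hpv
      rw [if_neg (Ne.symm hpv), if_neg huv] at hv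
      simp at hv
    · rw [if_neg hq] at hu
      simp at hu

theorem span_bin_toricI (A : (σ →₀ ℕ) →+ D) :
    Ideal.span {f : MvPolynomial σ k | ∃ u v, A u = A v ∧ f = bin k u v} = toricI k A := by
  classical
  refine le_antisymm ?_ ?_
  · rw [Ideal.span_le]
    rintro _ ⟨u, v, huv, rfl⟩
    exact (bin_mem_toricI A u v).2 huv
  · intro f hf
    set J := Ideal.span {f : MvPolynomial σ k | ∃ u v, A u = A v ∧ f = bin k u v} with hJ
    -- a section of `A`
    obtain ⟨s, hs⟩ : ∃ s : D → (σ →₀ ℕ), ∀ u, A (s (A u)) = A u := by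
      refine ⟨fun x => if h : ∃ u, A u = x then h.choose else 0, fun u => ?_⟩
      have h : ∃ v, A v = A u := ⟨u, rfl⟩
      simp only [dif_pos h]
      exact h.choose_spec
    have key : ∀ g : MvPolynomial σ k,
        g - (AddMonoidAlgebra.mapDomain (fun u => s (A u)) g : MvPolynomial σ k) ∈ J := by
      intro g
      induction g using MvPolynomial.induction_on' with
      | monomial u a =>
        have h1 : AddMonoidAlgebra.mapDomain (fun u => s (A u)) (monomial u a : MvPolynomial σ k)
            = monomial (s (A u)) a := AddMonoidAlgebra.mapDomain_single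
        rw [h1]
        have h2 : (monomial u a : MvPolynomial σ k) - monomial (s (A u)) a
            = C a * bin k u (s (A u)) := by
          unfold bin
          rw [mul_sub, C_mul_monomial, C_mul_monomial, mul_one]
        rw [h2]
        exact J.mul_mem_left _ (Ideal.subset_span ⟨u, s (A u), (hs u).symm, rfl⟩)
      | add p q hp hq =>
        rw [AddMonoidAlgebra.mapDomain_add]
        have : p + q - (AddMonoidAlgebra.mapDomain (fun u => s (A u)) p
            + AddMonoidAlgebra.mapDomain (fun u => s (A u)) q) =
          (p - AddMonoidAlgebra.mapDomain (fun u => s (A u)) p)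
            + (q - AddMonoidAlgebra.mapDomain (fun u => s (A u)) q) := by ring
        rw [this]
        exact J.add_mem hp hq
    have h1 : AddMonoidAlgebra.mapDomain A f = 0 := hf
    have h2 : AddMonoidAlgebra.mapDomain (fun u => s (A u)) f = 0 := by
      have : AddMonoidAlgebra.mapDomain (fun u => s (A u)) f =
          AddMonoidAlgebra.mapDomain s (AddMonoidAlgebra.mapDomain A f) := by
        apply AddMonoidAlgebra.coeff_injective
        exact Finsupp.mapDomain_comp (f := A) (g := s)
      rw [this, h1, AddMonoidAlgebra.mapDomain_zero]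
    have := key f
    rwa [h2, sub_zero] at this

/-- the relation on exponents attached to a set of polynomials -/
def relOf (G : Set (MvPolynomial σ k)) (u v : σ →₀ ℕ) : Prop := bin k u v ∈ G

/-- the congruence of all pairs whose binomial lies in an ideal -/
def conOf (I : Ideal (MvPolynomial σ k)) : AddCon (σ →₀ ℕ) where
  r u v := bin k u v ∈ I
  iseqv := {
    refl := fun u => by rw [bin_self]; exact I.zero_mem
    symm := fun {u v} h => by rw [← neg_bin]; exact I.neg_mem h
    trans := fun {u v w} h h' => by rw [← bin_add_bin u v w]; exact I.add_mem h h' }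
  add' := fun {u v u' v'} h h' => by
    show bin k (u + u') (v + v') ∈ I
    rw [bin_add]
    exact I.add_mem (I.mul_mem_left _ h) (I.mul_mem_left _ h')

theorem bin_mem_span_iff (G : Set (MvPolynomial σ k))
    (hG : ∀ g ∈ G, ∃ u v : σ →₀ ℕ, g = bin k u v) (p q : σ →₀ ℕ) :
    bin k p q ∈ Ideal.span G ↔ addConGen (relOf G) p q := by
  constructor
  · intro h
    let c : AddCon (σ →₀ ℕ) := addConGen (relOf G)
    let ψ : MvPolynomial σ k →+* AddMonoidAlgebra k c.Quotient :=
      AddMonoidAlgebra.mapDomainRingHom k c.mk'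
    have h1 : Ideal.span G ≤ RingHom.ker ψ := by
      rw [Ideal.span_le]
      intro g hg
      obtain ⟨u, v, rfl⟩ := hG g hg
      show ψ (bin k u v) = 0
      rw [map_bin, single_sub_single_eq_zero]
      exact (AddCon.eq c).2 (AddConGen.Rel.of _ _ hg)
    have h2 : ψ (bin k p q) = 0 := h1 h
    rw [map_bin, single_sub_single_eq_zero] at h2
    exact (AddCon.eq c).1 h2
  · intro h
    have h1 : addConGen (relOf G) ≤ conOf (Ideal.span G) := by
      rw [AddCon.addConGen_le]
      intro u v huv
      exact Ideal.subset_span huv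
    exact h1 h

theorem span_eq_toricI_iff (A : (σ →₀ ℕ) →+ D) (G : Set (MvPolynomial σ k))
    (hG : ∀ g ∈ G, ∃ u v : σ →₀ ℕ, g = bin k u v) :
    Ideal.span G = toricI k A ↔ ∀ p q, A p = A q ↔ addConGen (relOf G) p q := by
  constructor
  · intro h p q
    rw [← bin_mem_toricI (k := k) A, ← h, bin_mem_span_iff G hG]
  · intro h
    refine le_antisymm ?_ ?_
    · rw [Ideal.span_le]
      intro g hg
      obtain ⟨u, v, rfl⟩ := hG g hg
      exact (bin_mem_toricI A u v).2 ((h u v).2 (AddConGen.Rel.of _ _ hg))
    · rw [← span_bin_toricI, Ideal.span_le]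
      rintro _ ⟨u, v, huv, rfl⟩
      exact (bin_mem_span_iff G hG u v).2 ((h u v).1 huv)

end Pool.Agent.Lib.MP_1df74f_al
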