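import Pool.Agent.Lib.MP_1df74f_al.Main

/-!
The main argument: the two inclusions for the smaller toric ideal.
-/

set_option autoImplicit false
set_option linter.unusedSectionVars false

namespace Pool.Agent.Lib.MP_1df74f_al

open MvPolynomial

variable {σ τ : Type} [Finite σ] [Finite τ] {k : Type*} [Field k] {D : Type*} [AddCommGroup D]
  {e : τ ↪ σ} {A : (σ →₀ ℕ) →+ D} {wt : (σ →₀ ℕ) →+ ℕ}

/-- both monomials of a member of a reduced Groebner basis are extreme in their fibre -/
theorem GPair.extreme {m : MonomialOrder.{0, 0} σ} {u v : σ →₀ ℕ} (h : GPair m A u v) :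
    (∀ g, A g = A u → m.toSyn g < m.toSyn u → ∀ i, g i = 0 ∨ u i = 0) ∧
    (∀ g, A g = A v → m.toSyn g < m.toSyn v → ∀ i, g i = 0 ∨ v i = 0) := by
  classical
  refine ⟨fun g hg hlt i => ?_, fun g hg hlt i => ?_⟩
  · by_contra hcon
    push Not at hcon
    have e1 : g - Finsupp.single i 1 + Finsupp.single i 1 = g := by
      apply tsub_add_cancel_of_le
      rw [Finsupp.single_le_iff]
      have := hcon.1
      omega
    have e2 : u - Finsupp.single i 1 + Finsupp.single i 1 = u := by
      apply tsub_add_cancel_of_le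
      rw [Finsupp.single_le_iff]
      have := hcon.2
      omega
    have h1 : A (g - Finsupp.single i 1) = A (u - Finsupp.single i 1) := by
      have : A (g - Finsupp.single i 1 + Finsupp.single i 1) =
          A (u - Finsupp.single i 1 + Finsupp.single i 1) := by rw [e1, e2, hg]
      rw [map_add, map_add] at this
      exact add_right_cancel this
    have h2 := h.2.2.2 i hcon.2 _ h1
    have h3 : m.toSyn u ≤ m.toSyn g := by
      rw [← e1, ← e2, map_add, map_add]
      exact add_le_add_left h2 _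
    exact absurd hlt (not_lt.2 h3)
  · exact absurd hlt (not_lt.2 (h.2.2.1 g hg))

/-- Part I -/
theorem universalGroebner_subset (hAwt : ∀ u v, A u = A v → wt u = wt v)
    (hwt : ∀ u, wt u = 0 → u = 0) (h : IsGeneralizedRobust (toricI k A)) :
    universalGroebner (toricI k (A.comp (ext0 e))) ⊆
      universalMarkov (toricI k (A.comp (ext0 e))) := by
  intro f hf
  obtain ⟨m', u, v, hp, rfl⟩ := (mem_universalGroebner _ _).1 hf
  obtain ⟨m₀⟩ := exists_monomialOrder σ
  have hp2 := ext_GPair (wt := wt) hwt m₀ m' hp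
  have h1 : bin k (ext0 e u) (ext0 e v) ∈ universalGroebner (toricI k A) :=
    (mem_universalGroebner _ _).2 ⟨_, _, _, hp2, rfl⟩
  rw [h, mem_universalMarkov A wt hAwt hwt] at h1
  have hAwt' : ∀ p q : τ →₀ ℕ, (A.comp (ext0 e)) p = (A.comp (ext0 e)) q →
      (wt.comp (ext0 e)) p = (wt.comp (ext0 e)) q := fun p q hpq => hAwt _ _ hpq
  have hwt' : ∀ p : τ →₀ ℕ, (wt.comp (ext0 e)) p = 0 → p = 0 := fun p hp => by
    have := hwt _ hp
    exact ext0_injective e (by rw [this, map_zero])
  rw [mem_universalMarkov _ (wt.comp (ext0 e)) hAwt' hwt']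
  exact ⟨hp.1, fun hlow => h1.2 (low_ext hlow)⟩

/-- a Groebner pair in the fibre of a Markov pair -/
theorem exists_GPair_of_not_low (hAwt : ∀ u v, A u = A v → wt u = wt v)
    (hwt : ∀ u, wt u = 0 → u = 0) (m : MonomialOrder.{0, 0} σ) {u v : σ →₀ ℕ} (hA : A u = A v)
    (huv : ¬ lowCon A wt (wt u) u v) : ∃ p q, GPair m A p q ∧ A p = A u := by
  by_contra hcon
  push Not at hcon
  obtain ⟨v₀, hv₀, hstd⟩ := exists_std (m := m) (A := A) u
  have key : ∀ s : m.syn, ∀ w, m.toSyn w = s → A w = A u → lowCon A wt (wt u) w v₀ := by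
    intro s
    induction s using WellFoundedLT.induction with
    | ind s ih =>
      intro w hws hAw
      by_cases hw : IsStd m A w
      · rw [hw.eq hstd (hAw.trans hv₀.symm)]
        exact (lowCon A wt _).refl _
      · obtain ⟨p, q, hpq, hle⟩ := exists_minimal_nonstd hw
        obtain ⟨t, rfl⟩ := exists_add_of_le hle
        have ht : t ≠ 0 := by
          rintro rfl
          rw [add_zero] at hAw
          exact hcon p q hpq hAw
        have hAq : A (p + t) = A (q + t) := by rw [map_add, map_add, hpq.1]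
        have h1 : lowCon A wt (wt u) (p + t) (q + t) :=
          lowCon_add hwt ht (hAwt _ _ hAw.symm) hAq
        have hlt : m.toSyn (q + t) < s := by
          rw [← hws, map_add, map_add]
          exact add_lt_add_left hpq.lt _
        have h2 := ih _ hlt (q + t) rfl (hAq.symm.trans hAw)
        exact (lowCon A wt _).trans h1 h2
  exact huv ((lowCon A wt _).trans (key _ u rfl rfl) ((lowCon A wt _).symm (key _ v rfl hA.symm)))

/-- under generalized robustness all monomials of a fibre with two components are extreme -/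
theorem exists_extreme (hAwt : ∀ u v, A u = A v → wt u = wt v)
    (hwt : ∀ u, wt u = 0 → u = 0) (h : IsGeneralizedRobust (toricI k A)) {p q : σ →₀ ℕ}
    (hpq : A p = A q) (hlow : ¬ lowCon A wt (wt p) p q) {x : σ →₀ ℕ} (hx : A x = A p) :
    ∃ m : MonomialOrder.{0, 0} σ, ∀ g, A g = A x → m.toSyn g < m.toSyn x →
      ∀ i, g i = 0 ∨ x i = 0 := by
  have key : ∀ y, A x = A y → ¬ lowCon A wt (wt x) x y → ∃ m : MonomialOrder.{0, 0} σ,
      ∀ g, A g = A x → m.toSyn g < m.toSyn x → ∀ i, g i = 0 ∨ x i = 0 := by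
    intro y hxy hl
    have hne : x ≠ y := by rintro rfl; exact hl ((lowCon A wt _).refl _)
    have h1 : bin k x y ∈ universalMarkov (toricI k A) :=
      (mem_universalMarkov A wt hAwt hwt x y).2 ⟨hxy, hl⟩
    rw [← h, mem_universalGroebner] at h1
    obtain ⟨m, u', v', hp, heq⟩ := h1
    refine ⟨m, ?_⟩
    rcases bin_eq_bin hne heq with ⟨rfl, rfl⟩ | ⟨rfl, rfl⟩
    · exact hp.extreme.1
    · exact hp.extreme.2
  by_cases h1 : lowCon A wt (wt x) x p
  · refine key q (hx.trans hpq) (fun h2 => hlow ?_)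
    rw [← hAwt x p hx]
    exact (lowCon A wt _).trans ((lowCon A wt _).symm h1) h2
  · exact key p hx h1

/-- Part II -/
theorem universalMarkov_subset (hAwt : ∀ u v, A u = A v → wt u = wt v)
    (hwt : ∀ u, wt u = 0 → u = 0) (h : IsGeneralizedRobust (toricI k A)) :
    universalMarkov (toricI k (A.comp (ext0 e))) ⊆
      universalGroebner (toricI k (A.comp (ext0 e))) := by
  classical
  intro f hf
  obtain ⟨u, v, rfl⟩ : ∃ u v : τ →₀ ℕ, f = bin k u v := by
    obtain ⟨G, hG, hfG⟩ := hf
    exact hG.1 f hfG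
  set A' := A.comp (ext0 e) with hA'
  set wt' := wt.comp (ext0 e) with hwt'
  have hAwt1 : ∀ p q : τ →₀ ℕ, A' p = A' q → wt' p = wt' q := fun p q hpq => hAwt _ _ hpq
  have hwt1 : ∀ p : τ →₀ ℕ, wt' p = 0 → p = 0 := fun p hp => by
    have := hwt _ hp
    exact ext0_injective e (by rw [this, map_zero])
  rw [mem_universalMarkov _ wt' hAwt1 hwt1] at hf
  obtain ⟨hAuv, hlow⟩ := hf
  have huv : u ≠ v := by rintro rfl; exact hlow ((lowCon A' wt' _).refl _)
  obtain ⟨mτ⟩ := exists_monomialOrder τ
  obtain ⟨mσ⟩ := exists_monomialOrder σ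
  obtain ⟨p, q, hpq, hApu⟩ := exists_GPair_of_not_low hAwt1 hwt1 mτ hAuv hlow
  have hpq2 := ext_GPair (wt := wt) hwt mσ mτ hpq
  have hbin : bin k (ext0 e p) (ext0 e q) ∈ universalMarkov (toricI k A) := by
    rw [← h]
    exact (mem_universalGroebner _ _).2 ⟨_, _, _, hpq2, rfl⟩
  rw [mem_universalMarkov A wt hAwt hwt] at hbin
  obtain ⟨hApq, hlow2⟩ := hbin
  obtain ⟨m1, hm1⟩ := exists_extreme hAwt hwt h hApq hlow2 (x := ext0 e u) hApu.symm
  obtain ⟨m2, hm2⟩ := exists_extreme hAwt hwt h hApq hlow2 (x := ext0 e v)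
    ((hApu.trans hAuv).symm)
  -- `u` and `v` have disjoint supports
  have hdisj : ∀ j, u j = 0 ∨ v j = 0 := by
    intro j
    by_contra hcon
    push Not at hcon
    exact hlow (lowCon_of_share hwt1 hAuv hcon.1 hcon.2)
  -- the pieces of the glued order
  let F0 : (τ →₀ ℕ) →+ (τ →₀ ℕ) := Finsupp.filterAddHom (fun j => u j = 0 ∧ v j = 0)
  let F1 : (τ →₀ ℕ) →+ (τ →₀ ℕ) := Finsupp.filterAddHom (fun j => u j ≠ 0)
  let F2 : (τ →₀ ℕ) →+ (τ →₀ ℕ) := Finsupp.filterAddHom (fun j => v j ≠ 0)
  have F0a : ∀ w j, F0 w j = if u j = 0 ∧ v j = 0 then w j else 0 := fun w j => rfl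
  have F1a : ∀ w j, F1 w j = if u j ≠ 0 then w j else 0 := fun w j => rfl
  have F2a : ∀ w j, F2 w j = if v j ≠ 0 then w j else 0 := fun w j => rfl
  let M : MonomialOrder.{0, 0} τ :=
    refine (wt'.comp F0) (monotone_hom _ (fun _ => Nat.zero_le _))
      (refine (wt'.comp F1) (monotone_hom _ (fun _ => Nat.zero_le _))
        (refine (m1.toSyn.toAddMonoidHom.comp ((ext0 e).comp F1))
            (monotone_hom _ (fun _ => m1.zero_le _))
          (refine (m2.toSyn.toAddMonoidHom.comp ((ext0 e).comp F2))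
            (monotone_hom _ (fun _ => m2.zero_le _)) mτ)))
  have hM : ∀ x y, M.toSyn x < M.toSyn y ↔
      (wt' (F0 x) < wt' (F0 y) ∨ (wt' (F0 x) = wt' (F0 y) ∧
        (wt' (F1 x) < wt' (F1 y) ∨ (wt' (F1 x) = wt' (F1 y) ∧
          (m1.toSyn (ext0 e (F1 x)) < m1.toSyn (ext0 e (F1 y)) ∨
            (m1.toSyn (ext0 e (F1 x)) = m1.toSyn (ext0 e (F1 y)) ∧
            (m2.toSyn (ext0 e (F2 x)) < m2.toSyn (ext0 e (F2 y)) ∨
              (m2.toSyn (ext0 e (F2 x)) = m2.toSyn (ext0 e (F2 y)) ∧
              mτ.toSyn x < mτ.toSyn y)))))))) := by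
    intro x y
    simp only [M, refine_lt_iff]
    rfl
  have hF0u : F0 u = 0 := by
    ext j; rw [F0a]; split_ifs with h
    · exact h.1
    · rfl
  have hF0v : F0 v = 0 := by
    ext j; rw [F0a]; split_ifs with h
    · exact h.2
    · rfl
  have hF1u : F1 u = u := by
    ext j; rw [F1a]; split_ifs with h
    · rfl
    · push Not at h; exact h.symm
  have hF1v : F1 v = 0 := by
    ext j; rw [F1a]; split_ifs with h
    · exact (hdisj j).resolve_left h
    · rfl
  have hF2v : F2 v = v := by
    ext j; rw [F2a]; split_ifs with h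
    · rfl
    · push Not at h; exact h.symm
  have hvz : v ≠ 0 := by
    rintro rfl
    have h1 : wt' u = 0 := by rw [hAwt1 u 0 hAuv, map_zero]
    exact huv (hwt1 u h1)
  -- `v` is standard
  have hvstd : IsStd M A' v := by
    intro w hAw
    by_contra hlt
    push Not at hlt
    rw [hM, hF0v, hF1v, hF2v, map_zero, map_zero, map_zero] at hlt
    rcases hlt with h1 | ⟨h1, hlt⟩
    · exact absurd h1 (Nat.not_lt_zero _)
    rcases hlt with h2 | ⟨h2, hlt⟩
    · exact absurd h2 (Nat.not_lt_zero _)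
    have hF0w : F0 w = 0 := hwt1 _ h1
    have hF1w : F1 w = 0 := hwt1 _ h2
    rw [hF1w, map_zero, map_zero] at hlt
    rcases hlt with h3 | ⟨-, hlt⟩
    · exact lt_irrefl _ h3
    have hws : ∀ j, v j = 0 → w j = 0 := by
      intro j hj
      by_cases huj : u j = 0
      · have := DFunLike.congr_fun hF0w j
        rw [F0a, if_pos ⟨huj, hj⟩] at this
        exact this
      · have := DFunLike.congr_fun hF1w j
        rw [F1a, if_pos huj] at this
        exact this
    have hF2w : F2 w = w := by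
      ext j; rw [F2a]; split_ifs with h
      · rfl
      · push Not at h; exact (hws j h).symm
    rw [hF2w] at hlt
    rcases hlt with h4 | ⟨h4, h5⟩
    · have h6 := hm2 (ext0 e w) hAw h4
      have hw0 : w = 0 := by
        ext j
        by_cases hj : v j = 0
        · exact hws j hj
        · have := h6 (e j)
          rw [ext0_apply, ext0_apply] at this
          exact this.resolve_right hj
      have h7 : wt' v = 0 := by rw [← hAwt1 w v hAw, hw0, map_zero]
      exact hvz (hwt1 v h7)
    · have h6 : w = v := ext0_injective e (m2.toSyn.injective h4)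
      rw [h6] at h5
      exact lt_irrefl _ h5
  refine (mem_universalGroebner _ _).2 ⟨M, u, v, ⟨hAuv, huv, hvstd, ?_⟩, rfl⟩
  intro i hi w hAw
  by_contra hlt
  push Not at hlt
  set g := w + Finsupp.single i 1 with hg
  have e2 : u - Finsupp.single i 1 + Finsupp.single i 1 = u := by
    apply tsub_add_cancel_of_le
    rw [Finsupp.single_le_iff]
    omega
  have hAg : A' g = A' u := by
    rw [hg, map_add, hAw, ← map_add, e2]
  have hgi : g i ≠ 0 := by
    rw [hg]
    simp
  have hlt2 : M.toSyn g < M.toSyn u := by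
    have : M.toSyn g < M.toSyn (u - Finsupp.single i 1 + Finsupp.single i 1) := by
      rw [hg, map_add, map_add]
      exact add_lt_add_left hlt _
    rwa [e2] at this
  have hlowg : lowCon A' wt' (wt' u) g u := by
    rw [← hAwt1 g u hAg]
    exact lowCon_of_share hwt1 hAg hgi hi
  have hgv : ∀ j, g j = 0 ∨ v j = 0 := by
    intro j
    by_contra hcon
    push Not at hcon
    have h1 := lowCon_of_share (A := A') (wt := wt') hwt1 (hAg.trans hAuv) hcon.1 hcon.2
    rw [hAwt1 g u hAg] at h1
    exact hlow ((lowCon A' wt' _).trans ((lowCon A' wt' _).symm hlowg) h1)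
  have hlt3 := hlt2
  rw [hM, hF0u, hF1u, map_zero] at hlt3
  rcases hlt3 with h1 | ⟨h1, hlt3⟩
  · exact absurd h1 (Nat.not_lt_zero _)
  have hF0g : F0 g = 0 := hwt1 _ h1
  have hF1g : F1 g = g := by
    ext j; rw [F1a]; split_ifs with hj
    · rfl
    · push Not at hj
      rcases hgv j with h2 | h2
      · exact h2.symm
      · have := DFunLike.congr_fun hF0g j
        rw [F0a, if_pos ⟨hj, h2⟩] at this
        exact this.symm
  rw [hF1g] at hlt3
  rcases hlt3 with h2 | ⟨h2, hlt3⟩
  · rw [hAwt1 g u hAg] at h2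
    exact lt_irrefl _ h2
  rcases hlt3 with h3 | ⟨h3, -⟩
  · have h4 := hm1 (ext0 e g) hAg h3 (e i)
    rw [ext0_apply, ext0_apply] at h4
    rcases h4 with h4 | h4
    · exact hgi h4
    · exact hi h4
  · have h4 : g = u := ext0_injective e (m1.toSyn.injective h3)
    rw [h4] at hlt2
    exact lt_irrefl _ hlt2

theorem isGeneralizedRobust_comp (hAwt : ∀ u v, A u = A v → wt u = wt v)
    (hwt : ∀ u, wt u = 0 → u = 0) (h : IsGeneralizedRobust (toricI k A)) :
    IsGeneralizedRobust (toricI k (A.comp (ext0 e))) :=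
  Set.Subset.antisymm (universalGroebner_subset hAwt hwt h) (universalMarkov_subset hAwt hwt h)

end Pool.Agent.Lib.MP_1df74f_al
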