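import Pool.Agent.Lib.MP_1df74f_al.Cong

/-!
Reduced Groebner bases of toric ideals.
-/

set_option autoImplicit false

namespace Pool.Agent.Lib.MP_1df74f_al

open MvPolynomial

/-- `G` is the reduced Groebner basis of the ideal `I` with respect to the monomial order `m`:
`G ⊆ I`, all leading coefficients are `1`, the leading monomial of every nonzero element of `I`
is divisible by the leading monomial of an element of `G`, and no monomial of an element of `G`
is divisible by the leading monomial of another element of `G`. -/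
def IsReducedGroebnerBasis {σ k : Type*} [Field k] (m : MonomialOrder σ)
    (I : Ideal (MvPolynomial σ k)) (G : Set (MvPolynomial σ k)) : Prop :=
  (∀ g ∈ G, g ∈ I) ∧ (∀ g ∈ G, m.leadingCoeff g = 1) ∧
    (∀ f ∈ I, f ≠ 0 → ∃ g ∈ G, m.degree g ≤ m.degree f) ∧
    ∀ g ∈ G, ∀ h ∈ G, h ≠ g → ∀ c ∈ g.support, ¬ m.degree h ≤ c

variable {σ : Type*} {k : Type*} [Field k] {D : Type*} [AddCommGroup D]
  (m : MonomialOrder σ) (A : (σ →₀ ℕ) →+ D)

/-- standard monomials: the smallest ones in their fibre -/
def IsStd (w : σ →₀ ℕ) : Prop := ∀ w', A w' = A w → m.toSyn w ≤ m.toSyn w'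

/-- the pairs giving the reduced Groebner basis -/
def GPair (u v : σ →₀ ℕ) : Prop :=
  A u = A v ∧ u ≠ v ∧ IsStd m A v ∧ ∀ i, u i ≠ 0 → IsStd m A (u - Finsupp.single i 1)

variable {m A}

theorem IsStd.of_add {x t : σ →₀ ℕ} (h : IsStd m A (x + t)) : IsStd m A x := by
  intro w hw
  have := h (w + t) (by rw [map_add, map_add, hw])
  rw [map_add, map_add] at this
  exact le_of_add_le_add_right this

theorem IsStd.of_le {x y : σ →₀ ℕ} (h : IsStd m A y) (hxy : x ≤ y) : IsStd m A x := by
  obtain ⟨t, rfl⟩ := exists_add_of_le hxy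
  exact h.of_add

theorem IsStd.eq {x y : σ →₀ ℕ} (hx : IsStd m A x) (hy : IsStd m A y) (h : A x = A y) : x = y :=
  m.toSyn.injective (le_antisymm (hx y h.symm) (hy x h))

theorem GPair.lt {u v : σ →₀ ℕ} (h : GPair m A u v) : m.toSyn v < m.toSyn u :=
  lt_of_le_of_ne (h.2.2.1 u h.1) (fun e => h.2.1 (m.toSyn.injective e).symm)

theorem GPair.not_std {u v : σ →₀ ℕ} (h : GPair m A u v) : ¬ IsStd m A u := fun hu =>
  absurd (hu v h.1.symm) (not_le.2 h.lt)

theorem degree_bin {u v : σ →₀ ℕ} (h : m.toSyn v < m.toSyn u) : m.degree (bin k u v) = u := by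
  classical
  unfold bin
  rw [MonomialOrder.degree_sub_of_lt]
  · rw [MonomialOrder.degree_monomial, if_neg one_ne_zero]
  · rwa [MonomialOrder.degree_monomial, MonomialOrder.degree_monomial, if_neg one_ne_zero,
      if_neg one_ne_zero]

theorem leadingCoeff_bin {u v : σ →₀ ℕ} (h : m.toSyn v < m.toSyn u) :
    m.leadingCoeff (bin k u v) = 1 := by
  classical
  unfold bin
  rw [MonomialOrder.leadingCoeff_sub_of_lt]
  · rw [MonomialOrder.leadingCoeff_monomial]
  · rwa [MonomialOrder.degree_monomial, MonomialOrder.degree_monomial, if_neg one_ne_zero,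
      if_neg one_ne_zero]

theorem mem_support_bin {u v c : σ →₀ ℕ} (h : c ∈ (bin k u v).support) : c = u ∨ c = v := by
  classical
  unfold bin at h
  have := MvPolynomial.support_sub σ _ _ h
  rw [Finset.mem_union] at this
  rcases this with h | h
  · left; simpa using MvPolynomial.support_monomial_subset h
  · right; simpa using MvPolynomial.support_monomial_subset h

/-- elements of the toric ideal have at least two monomials in each fibre they meet -/
theorem exists_other {f : MvPolynomial σ k} (hf : f ∈ toricI k A) {u : σ →₀ ℕ}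
    (hu : u ∈ f.support) : ∃ w ∈ f.support, w ≠ u ∧ A w = A u := by
  classical
  by_contra hcon
  push Not at hcon
  have h0 : AddMonoidAlgebra.mapDomain A f = 0 := hf
  have h1 := congrArg (fun g => g.coeff (A u)) h0
  simp only [AddMonoidAlgebra.coeff_zero, Finsupp.coe_zero, Pi.zero_apply] at h1
  have h2 : (AddMonoidAlgebra.mapDomain A f).coeff (A u) =
      ∑ w ∈ f.support, (Finsupp.single (A w) (f.coeff w)) (A u) := by
    show (Finsupp.mapDomain A (AddMonoidAlgebra.coeff f)) (A u) = _
    unfold Finsupp.mapDomain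
    rw [Finsupp.sum_apply]
    rfl
  rw [h2, Finset.sum_eq_single u] at h1
  · rw [Finsupp.single_eq_same] at h1
    exact (MvPolynomial.mem_support_iff.1 hu) h1
  · intro w hw hwu
    rw [Finsupp.single_eq_of_ne]
    exact fun h => hcon w hw hwu h.symm
  · intro h
    exact absurd hu h

/-- description of the elements of a reduced Groebner basis -/
theorem IsReducedGroebnerBasis.exists_pair {G : Set (MvPolynomial σ k)}
    (hG : IsReducedGroebnerBasis m (toricI k A) G) {f : MvPolynomial σ k} (hf : f ∈ G) :
    ∃ u v, GPair m A u v ∧ f = bin k u v := by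
  classical
  obtain ⟨hGI, hG1, hGB, hred⟩ := hG
  have hf0 : f ≠ 0 := by
    rintro rfl
    have := hG1 0 hf
    rw [MonomialOrder.leadingCoeff_zero] at this
    exact zero_ne_one this
  set u := m.degree f with hu
  have husupp : u ∈ f.support := MonomialOrder.degree_mem_support hf0
  have hstd : ∀ w ∈ f.support, w ≠ u → IsStd m A w := by
    intro w hw hwu w' hw'
    by_contra hlt
    push Not at hlt
    have hmem : bin k w w' ∈ toricI k A := (bin_mem_toricI A w w').2 hw'.symm
    have hne : bin k w w' ≠ 0 := by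
      rw [Ne, bin_eq_zero]
      rintro rfl
      exact lt_irrefl _ hlt
    obtain ⟨g, hg, hgle⟩ := hGB _ hmem hne
    rw [degree_bin hlt] at hgle
    by_cases hgf : g = f
    · subst hgf
      have h1 : m.toSyn u ≤ m.toSyn w := m.toSyn_monotone hgle
      have h2 : m.toSyn w ≤ m.toSyn u := MonomialOrder.le_degree hw
      exact hwu (m.toSyn.injective (le_antisymm h2 h1))
    · exact hred f hf g hg hgf w hw hgle
  obtain ⟨v, hv, hvu, hAv⟩ := exists_other (hGI f hf) husupp
  have hvstd := hstd v hv hvu
  refine ⟨u, v, ⟨hAv.symm, hvu.symm, hvstd, ?_⟩, ?_⟩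
  · intro i hi w' hw'
    by_contra hlt
    push Not at hlt
    have hmem : bin k (u - Finsupp.single i 1) w' ∈ toricI k A :=
      (bin_mem_toricI A _ w').2 hw'.symm
    have hne : bin k (u - Finsupp.single i 1) w' ≠ 0 := by
      rw [Ne, bin_eq_zero]
      intro h
      rw [h] at hlt
      exact lt_irrefl _ hlt
    obtain ⟨g, hg, hgle⟩ := hGB _ hmem hne
    rw [degree_bin hlt] at hgle
    by_cases hgf : g = f
    · subst hgf
      have := hgle i
      rw [← hu] at this
      simp only [Finsupp.coe_tsub, Pi.sub_apply, Finsupp.single_eq_same] at this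
      omega
    · exact hred f hf g hg hgf u husupp (hgle.trans tsub_le_self)
  · by_contra hne
    have hne' : f - bin k u v ≠ 0 := sub_ne_zero.2 hne
    have hmem : f - bin k u v ∈ toricI k A :=
      (toricI k A).sub_mem (hGI f hf) ((bin_mem_toricI A u v).2 hAv.symm)
    have hcu : coeff u f = 1 := hG1 f hf
    have hsupp : ∀ w ∈ (f - bin k u v).support, IsStd m A w := by
      intro w hw
      by_cases hwv : w = v
      · rwa [hwv]
      by_cases hwu : w = u
      · exfalso
        subst hwu
        rw [MvPolynomial.mem_support_iff] at hw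
        apply hw
        unfold bin
        rw [coeff_sub, coeff_sub, coeff_monomial, coeff_monomial, if_pos rfl, if_neg hvu, hcu]
        ring
      · apply hstd w _ hwu
        rw [MvPolynomial.mem_support_iff] at hw ⊢
        intro h
        apply hw
        unfold bin
        rw [coeff_sub, coeff_sub, coeff_monomial, coeff_monomial, if_neg (Ne.symm hwu),
          if_neg (Ne.symm hwv), h]
        ring
    obtain ⟨w, hw⟩ := (MvPolynomial.support_nonempty.2 hne')
    obtain ⟨w', hw', hww', hAw⟩ := exists_other hmem hw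
    exact hww' ((hsupp w' hw').eq (hsupp w hw) hAw)

theorem exists_std (w : σ →₀ ℕ) : ∃ v, A v = A w ∧ IsStd m A v := by
  have hne : (m.toSyn '' {v | A v = A w}).Nonempty := ⟨_, w, rfl, rfl⟩
  obtain ⟨v, hv, hv2⟩ := WellFounded.min_mem (wellFounded_lt (α := m.syn)) _ hne
  refine ⟨v, hv, ?_⟩
  intro w' hw'
  rw [hv2, ← not_lt]
  exact WellFounded.not_lt_min (wellFounded_lt (α := m.syn)) (s := m.toSyn '' {v | A v = A w})
    (x := m.toSyn w') ⟨w', hw'.trans hv, rfl⟩

theorem exists_minimal_nonstd [Finite σ] {w : σ →₀ ℕ} (hw : ¬ IsStd m A w) :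
    ∃ u v, GPair m A u v ∧ u ≤ w := by
  have hwf : WellFounded (fun x y : σ →₀ ℕ => x < y) := wellFounded_lt
  have hne : ({u | u ≤ w ∧ ¬ IsStd m A u} : Set (σ →₀ ℕ)).Nonempty := ⟨w, le_refl w, hw⟩
  set u := hwf.min _ hne with hu
  have hmem := hwf.min_mem _ hne
  obtain ⟨v, hv, hvstd⟩ := exists_std (m := m) (A := A) u
  refine ⟨u, v, ⟨hv.symm, ?_, hvstd, ?_⟩, hmem.1⟩
  · rintro huv
    rw [← huv] at hvstd
    exact hmem.2 hvstd
  · intro i hi
    by_contra hcon
    have hlt : u - Finsupp.single i 1 < u := by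
      refine lt_of_le_of_ne tsub_le_self ?_
      intro h
      have := DFunLike.congr_fun h i
      simp only [Finsupp.coe_tsub, Pi.sub_apply, Finsupp.single_eq_same] at this
      omega
    exact hwf.not_lt_min (s := ({u | u ≤ w ∧ ¬ IsStd m A u} : Set (σ →₀ ℕ)))
      (x := u - Finsupp.single i 1) ⟨hlt.le.trans hmem.1, hcon⟩ hlt

/-- the reduced Groebner basis exists -/
theorem isReducedGroebnerBasis [Finite σ] (m : MonomialOrder σ) (A : (σ →₀ ℕ) →+ D) :
    IsReducedGroebnerBasis m (toricI k A) {f | ∃ u v, GPair m A u v ∧ f = bin k u v} := by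
  refine ⟨?_, ?_, ?_, ?_⟩
  · rintro _ ⟨u, v, h, rfl⟩
    exact (bin_mem_toricI A u v).2 h.1
  · rintro _ ⟨u, v, h, rfl⟩
    exact leadingCoeff_bin h.lt
  · intro f hf hf0
    have hsupp : m.degree f ∈ f.support := MonomialOrder.degree_mem_support hf0
    obtain ⟨w, hw, hwne, hAw⟩ := exists_other hf hsupp
    have hnstd : ¬ IsStd m A (m.degree f) := by
      intro h
      have h1 := h w hAw
      have h2 : m.toSyn w ≤ m.toSyn (m.degree f) := MonomialOrder.le_degree hw
      exact hwne (m.toSyn.injective (le_antisymm h2 h1))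
    obtain ⟨u, v, h, hle⟩ := exists_minimal_nonstd hnstd
    exact ⟨bin k u v, ⟨u, v, h, rfl⟩, by rwa [degree_bin h.lt]⟩
  · rintro _ ⟨u, v, h, rfl⟩ _ ⟨u', v', h', rfl⟩ hne c hc hle
    rw [degree_bin h'.lt] at hle
    rcases mem_support_bin hc with rfl | rfl
    · by_cases huu : u' = c
      · subst huu
        have : v = v' := h.2.2.1.eq h'.2.2.1 (h.1.symm.trans h'.1)
        subst this
        exact hne rfl
      · have : ∃ i, u' i < c i := by
          by_contra hcon
          push Not at hcon
          exact huu (le_antisymm hle hcon)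
        obtain ⟨i, hi⟩ := this
        have hle2 : u' ≤ c - Finsupp.single i 1 := by
          intro j
          by_cases hj : j = i
          · subst hj
            simp only [Finsupp.coe_tsub, Pi.sub_apply, Finsupp.single_eq_same]
            omega
          · simp only [Finsupp.coe_tsub, Pi.sub_apply]
            rw [Finsupp.single_eq_of_ne hj]
            exact hle j
        exact h'.not_std ((h.2.2.2 i (by omega)).of_le hle2)
    · exact h'.not_std (h.2.2.1.of_le hle)

end Pool.Agent.Lib.MP_1df74f_al
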