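import Mathlib

/-!
Lexicographic refinement of monomial orders.
-/

set_option autoImplicit false

namespace Pool.Agent.Lib.MP_1df74f_al

variable {σ : Type}

/-- auxiliary homomorphism -/
noncomputable def lexHom {L : Type} [AddCommMonoid L] (φ : (σ →₀ ℕ) →+ L)
    (m : MonomialOrder σ) : (σ →₀ ℕ) →+ L ×ₗ m.syn where
  toFun x := toLex (φ x, m.toSyn x)
  map_zero' := by simp
  map_add' x y := by simp; rfl

/-- compare first by `φ`, then by `m` -/
noncomputable def refine {L : Type} [AddCommMonoid L] [LinearOrder L] [IsOrderedCancelAddMonoid L]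
    [WellFoundedLT L] (φ : (σ →₀ ℕ) →+ L) (hφ : Monotone φ) (m : MonomialOrder.{0, 0} σ) :
    MonomialOrder.{0, 0} σ where
  syn := AddMonoidHom.mrange (lexHom φ m)
  addCommMonoidSyn := inferInstance
  linearOrderSyn := inferInstance
  isOrderedAddMonoid_syn := inferInstance
  toSyn := AddEquiv.ofBijective ((lexHom φ m).mrangeRestrict) ⟨by
    intro x y h
    have h1 := congrArg Subtype.val h
    have h2 : toLex (φ x, m.toSyn x) = toLex (φ y, m.toSyn y) := h1
    have h3 := congrArg (fun z => (ofLex z).2) h2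
    exact m.toSyn.injective h3, (lexHom φ m).mrangeRestrict_surjective⟩
  toSyn_monotone := by
    intro x y h
    show toLex (φ x, m.toSyn x) ≤ toLex (φ y, m.toSyn y)
    rw [Prod.Lex.toLex_le_toLex]
    rcases (hφ h).lt_or_eq with h1 | h1
    · exact Or.inl h1
    · exact Or.inr ⟨h1, m.toSyn_monotone h⟩
  wellFoundedLT_syn := inferInstance

theorem refine_lt_iff {L : Type} [AddCommMonoid L] [LinearOrder L] [IsOrderedCancelAddMonoid L]
    [WellFoundedLT L] (φ : (σ →₀ ℕ) →+ L) (hφ : Monotone φ) (m : MonomialOrder.{0, 0} σ)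
    (x y : σ →₀ ℕ) :
    (refine φ hφ m).toSyn x < (refine φ hφ m).toSyn y ↔
      φ x < φ y ∨ (φ x = φ y ∧ m.toSyn x < m.toSyn y) := by
  show toLex (φ x, m.toSyn x) < toLex (φ y, m.toSyn y) ↔ _
  rw [Prod.Lex.toLex_lt_toLex]

end Pool.Agent.Lib.MP_1df74f_al
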