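import Pool.Agent.Lib.MP_1df74f_al.Markov
import Pool.Agent.Lib.MP_1df74f_al.Groebner
import Pool.Agent.Lib.MP_1df74f_al.Orders

/-!
Generalized robustness passes to subfamilies.
-/

set_option autoImplicit false
set_option linter.unusedSectionVars false

namespace Pool.Agent.Lib.MP_1df74f_al

open MvPolynomial

/-- The universal Groebner basis of an ideal: the union of its reduced Groebner bases over all
monomial orders. -/
def universalGroebner {σ : Type} {k : Type*} [Field k] (I : Ideal (MvPolynomial σ k)) :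
    Set (MvPolynomial σ k) :=
  {f | ∃ (m : MonomialOrder.{0, 0} σ) (G : Set (MvPolynomial σ k)),
    IsReducedGroebnerBasis m I G ∧ f ∈ G}

/-- The universal Markov basis of an ideal: the union of all its minimal generating sets
consisting of binomials. -/
def universalMarkov {σ : Type} {k : Type*} [Field k] (I : Ideal (MvPolynomial σ k)) :
    Set (MvPolynomial σ k) :=
  {f | ∃ G : Set (MvPolynomial σ k), IsMinimalBinomialGeneratingSet I G ∧ f ∈ G}

/-- generalized robustness -/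
def IsGeneralizedRobust {σ : Type} {k : Type*} [Field k] (I : Ideal (MvPolynomial σ k)) : Prop :=
  universalGroebner I = universalMarkov I

section

variable {σ τ : Type} [Finite σ] [Finite τ] {k : Type*} [Field k] {D : Type*} [AddCommGroup D]

theorem mem_universalGroebner (A : (σ →₀ ℕ) →+ D) (f : MvPolynomial σ k) :
    f ∈ universalGroebner (toricI k A) ↔
      ∃ (m : MonomialOrder.{0, 0} σ) (u v : σ →₀ ℕ), GPair m A u v ∧ f = bin k u v := by
  constructor
  · rintro ⟨m, G, hG, hf⟩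
    obtain ⟨u, v, h⟩ := hG.exists_pair hf
    exact ⟨m, u, v, h⟩
  · rintro ⟨m, u, v, h, rfl⟩
    exact ⟨m, _, isReducedGroebnerBasis m A, u, v, h, rfl⟩

theorem mem_universalMarkov (A : (σ →₀ ℕ) →+ D) (wt : (σ →₀ ℕ) →+ ℕ)
    (hAwt : ∀ u v, A u = A v → wt u = wt v) (hwt : ∀ u, wt u = 0 → u = 0) (u v : σ →₀ ℕ) :
    bin k u v ∈ universalMarkov (toricI k A) ↔ A u = A v ∧ ¬ lowCon A wt (wt u) u v := by
  constructor
  · rintro ⟨G, hG, huv⟩
    refine ⟨?_, markov_not_low hAwt hG huv⟩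
    rw [← bin_mem_toricI (k := k) A, ← hG.2.1]
    exact Ideal.subset_span huv
  · rintro ⟨h1, h2⟩
    exact exists_markov hAwt hwt h1 h2

theorem exists_monomialOrder (σ : Type) [Finite σ] : Nonempty (MonomialOrder.{0, 0} σ) := by
  obtain ⟨n, ⟨f⟩⟩ := Finite.exists_equiv_fin σ
  let _ : LinearOrder σ := LinearOrder.lift' f f.injective
  exact ⟨MonomialOrder.lex⟩

theorem monotone_hom {L : Type*} [AddCommMonoid L] [PartialOrder L] [IsOrderedAddMonoid L]
    (φ : (σ →₀ ℕ) →+ L) (h : ∀ t, 0 ≤ φ t) : Monotone φ := by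
  intro x y hxy
  obtain ⟨t, rfl⟩ := exists_add_of_le hxy
  rw [map_add]
  exact le_add_of_nonneg_right (h t)

variable (e : τ ↪ σ)

/-- extension by zero -/
noncomputable def ext0 : (τ →₀ ℕ) →+ (σ →₀ ℕ) := Finsupp.mapDomain.addMonoidHom e

/-- restriction -/
noncomputable def res0 : (σ →₀ ℕ) →+ (τ →₀ ℕ) := Finsupp.comapDomain.addMonoidHom e.injective

theorem ext0_apply (u : τ →₀ ℕ) (j : τ) : ext0 e u (e j) = u j :=
  Finsupp.mapDomain_apply e.injective u j

theorem ext0_notMem (u : τ →₀ ℕ) (i : σ) (hi : i ∉ Set.range e) : ext0 e u i = 0 :=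
  Finsupp.mapDomain_of_notMem_range u i hi

theorem res0_apply (w : σ →₀ ℕ) (j : τ) : res0 e w j = w (e j) := rfl

theorem ext0_injective : Function.Injective (ext0 e) := Finsupp.mapDomain_injective e.injective

theorem res0_ext0 (u : τ →₀ ℕ) : res0 e (ext0 e u) = u := by
  ext j; rw [res0_apply, ext0_apply]

theorem ext0_res0 {w : σ →₀ ℕ} (hw : ∀ i, i ∉ Set.range e → w i = 0) :
    ext0 e (res0 e w) = w := by
  ext i
  by_cases hi : i ∈ Set.range e
  · obtain ⟨j, rfl⟩ := hi
    rw [ext0_apply, res0_apply]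
  · rw [ext0_notMem e _ i hi, hw i hi]

theorem ext0_sub_single (u : τ →₀ ℕ) (j : τ) :
    ext0 e (u - Finsupp.single j 1) = ext0 e u - Finsupp.single (e j) 1 := by
  ext i
  by_cases hi : i ∈ Set.range e
  · obtain ⟨l, rfl⟩ := hi
    rw [ext0_apply]
    simp only [Finsupp.coe_tsub, Pi.sub_apply]
    rw [ext0_apply]
    congr 1
    by_cases hlj : l = j
    · subst hlj; simp
    · rw [Finsupp.single_eq_of_ne hlj, Finsupp.single_eq_of_ne (fun h => hlj (e.injective h))]
  · have h1 : i ≠ e j := fun h => hi ⟨j, h.symm⟩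
    simp only [Finsupp.coe_tsub, Pi.sub_apply]
    rw [ext0_notMem e _ i hi, ext0_notMem e _ i hi, Finsupp.single_eq_of_ne h1]
    rfl

variable {e}
variable (A : (σ →₀ ℕ) →+ D) (wt : (σ →₀ ℕ) →+ ℕ)

open Classical in
/-- weight outside the range of `e` -/
noncomputable def outWt (e : τ ↪ σ) (wt : (σ →₀ ℕ) →+ ℕ) : (σ →₀ ℕ) →+ ℕ :=
  wt.comp (Finsupp.filterAddHom (fun i => i ∉ Set.range e))

theorem outWt_ext0 (u : τ →₀ ℕ) : outWt e wt (ext0 e u) = 0 := by
  classical
  unfold outWt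
  have : Finsupp.filterAddHom (fun i => i ∉ Set.range e) (ext0 e u) = 0 := by
    ext i
    show Finsupp.filter (fun i => i ∉ Set.range e) (ext0 e u) i = 0
    by_cases hi : i ∈ Set.range e
    · rw [Finsupp.filter_apply_neg (fun i => i ∉ Set.range e) _ (not_not.2 hi)]
    · rw [Finsupp.filter_apply_pos (fun i => i ∉ Set.range e) _ hi, ext0_notMem e _ i hi]
  rw [AddMonoidHom.comp_apply, this, map_zero]

theorem outWt_eq_zero (hwt : ∀ u, wt u = 0 → u = 0) {w : σ →₀ ℕ} (h : outWt e wt w = 0) :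
    ∀ i, i ∉ Set.range e → w i = 0 := by
  classical
  intro i hi
  unfold outWt at h
  rw [AddMonoidHom.comp_apply] at h
  have h1 := hwt _ h
  have h2 := DFunLike.congr_fun h1 i
  change Finsupp.filter (fun i => i ∉ Set.range e) w i = 0 at h2
  rwa [Finsupp.filter_apply_pos (fun i => i ∉ Set.range e) _ hi] at h2

/-- extension of a monomial order from `τ` to `σ` -/
noncomputable def extOrder (e : τ ↪ σ) (wt : (σ →₀ ℕ) →+ ℕ) (m₀ : MonomialOrder.{0, 0} σ)
    (m' : MonomialOrder.{0, 0} τ) : MonomialOrder.{0, 0} σ :=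
  refine (outWt e wt) (monotone_hom _ (fun _ => Nat.zero_le _))
    (refine (m'.toSyn.toAddMonoidHom.comp (res0 e)) (monotone_hom _ (fun _ => m'.zero_le _)) m₀)

variable {A wt}

theorem ext_std (hwt : ∀ u, wt u = 0 → u = 0) (m₀ : MonomialOrder.{0, 0} σ)
    (m' : MonomialOrder.{0, 0} τ) {v : τ →₀ ℕ} (hv : IsStd m' (A.comp (ext0 e)) v) :
    IsStd (extOrder e wt m₀ m') A (ext0 e v) := by
  intro w hw
  by_contra hlt
  push Not at hlt
  unfold extOrder at hlt
  rw [refine_lt_iff, refine_lt_iff, outWt_ext0] at hlt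
  rcases hlt with h | ⟨h1, h2⟩
  · exact absurd h (Nat.not_lt_zero _)
  · have h3 := ext0_res0 e (outWt_eq_zero wt hwt h1)
    have h4 : A.comp (ext0 e) (res0 e w) = A.comp (ext0 e) v := by
      rw [AddMonoidHom.comp_apply, h3, hw]; rfl
    have h5 := hv _ h4
    have e1 : (m'.toSyn.toAddMonoidHom.comp (res0 e)) (ext0 e v) = m'.toSyn v := by
      show m'.toSyn (res0 e (ext0 e v)) = _
      rw [res0_ext0]
    have e2 : (m'.toSyn.toAddMonoidHom.comp (res0 e)) w = m'.toSyn (res0 e w) := rfl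
    rw [e1, e2] at h2
    rcases h2 with h6 | ⟨h6, h7⟩
    · exact absurd h6 (not_lt.2 h5)
    · have h8 : res0 e w = v := m'.toSyn.injective h6
      rw [h8] at h3
      rw [h3] at h7
      exact lt_irrefl _ h7

theorem ext_GPair (hwt : ∀ u, wt u = 0 → u = 0) (m₀ : MonomialOrder.{0, 0} σ)
    (m' : MonomialOrder.{0, 0} τ) {u v : τ →₀ ℕ} (h : GPair m' (A.comp (ext0 e)) u v) :
    GPair (extOrder e wt m₀ m') A (ext0 e u) (ext0 e v) := by
  obtain ⟨h1, h2, h3, h4⟩ := h
  refine ⟨h1, fun h => h2 (ext0_injective e h), ext_std hwt m₀ m' h3, ?_⟩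
  intro i hi
  by_cases hir : i ∈ Set.range e
  · obtain ⟨j, rfl⟩ := hir
    rw [ext0_apply] at hi
    rw [← ext0_sub_single]
    exact ext_std hwt m₀ m' (h4 j hi)
  · exact absurd (ext0_notMem e u i hir) hi

theorem low_ext {β : ℕ} {p q : τ →₀ ℕ}
    (h : lowCon (A.comp (ext0 e)) (wt.comp (ext0 e)) β p q) :
    lowCon A wt β (ext0 e p) (ext0 e q) := by
  have : lowCon (A.comp (ext0 e)) (wt.comp (ext0 e)) β ≤
      AddCon.comap (ext0 e) (map_add _) (lowCon A wt β) := by
    unfold lowCon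
    rw [AddCon.addConGen_le]
    rintro s t ⟨h1, h2⟩
    rw [AddCon.comap_rel]
    exact AddConGen.Rel.of _ _ ⟨h1, h2⟩
  exact (AddCon.comap_rel _).1 (this h)

end

end Pool.Agent.Lib.MP_1df74f_al
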