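import Pool.Agent.Lib.MP_1df74f_al.Cong

/-!
Minimal binomial generating sets of toric ideals.
-/

set_option autoImplicit false

namespace Pool.Agent.Lib.MP_1df74f_al

open MvPolynomial

/-- `G` is a minimal generating set of `I` consisting of binomials `x^u - x^v`. -/
def IsMinimalBinomialGeneratingSet {σ k : Type*} [Field k] (I : Ideal (MvPolynomial σ k))
    (G : Set (MvPolynomial σ k)) : Prop :=
  (∀ g ∈ G, ∃ u v : σ →₀ ℕ, g = monomial u 1 - monomial v 1) ∧ Ideal.span G = I ∧
    ∀ H, H ⊂ G → Ideal.span H ≠ I

variable {σ : Type*} {k : Type*} [Field k] {D : Type*} [AddCommGroup D]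
  (A : (σ →₀ ℕ) →+ D) (wt : (σ →₀ ℕ) →+ ℕ)

/-- congruence generated by the pairs of equal `A`-degree and weight `< β`. -/
noncomputable def lowCon (β : ℕ) : AddCon (σ →₀ ℕ) := addConGen (fun p q => A p = A q ∧ wt p < β)

/-- the congruence `A p = A q` -/
noncomputable def degCon : AddCon (σ →₀ ℕ) := AddCon.ker A

theorem degCon_iff (p q : σ →₀ ℕ) : degCon A p q ↔ A p = A q := Iff.rfl

theorem lowCon_le_degCon (β : ℕ) : lowCon A wt β ≤ degCon A := by
  unfold lowCon
  rw [AddCon.addConGen_le]
  intro p q h
  exact h.1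

theorem lowCon_of_lt {β : ℕ} {p q : σ →₀ ℕ} (h : A p = A q) (h' : wt p < β) :
    lowCon A wt β p q := AddConGen.Rel.of _ _ ⟨h, h'⟩

variable {A wt}

theorem lowCon_add (hwt : ∀ u, wt u = 0 → u = 0) {p q t : σ →₀ ℕ} (ht : t ≠ 0) {β : ℕ}
    (hβ : β = wt (p + t)) (h : A (p + t) = A (q + t)) : lowCon A wt β (p + t) (q + t) := by
  have h1 : A p = A q := by
    rw [map_add, map_add] at h
    exact add_right_cancel h
  have h2 : wt p < β := by
    rw [hβ, map_add]
    have : wt t ≠ 0 := fun h => ht (hwt t h)
    omega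
  exact (lowCon A wt β).add (lowCon_of_lt A wt h1 h2) ((lowCon A wt β).refl t)

/-- members of a fibre sharing a variable are in the same component -/
theorem lowCon_of_share (hwt : ∀ u, wt u = 0 → u = 0) {u v : σ →₀ ℕ} (h : A u = A v) {i : σ}
    (hu : u i ≠ 0) (hv : v i ≠ 0) : lowCon A wt (wt u) u v := by
  classical
  have e1 : u - Finsupp.single i 1 + Finsupp.single i 1 = u := by
    apply tsub_add_cancel_of_le
    rw [Finsupp.single_le_iff]
    omega
  have e2 : v - Finsupp.single i 1 + Finsupp.single i 1 = v := by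
    apply tsub_add_cancel_of_le
    rw [Finsupp.single_le_iff]
    omega
  have := lowCon_add (A := A) (wt := wt) hwt (p := u - Finsupp.single i 1)
    (q := v - Finsupp.single i 1) (t := Finsupp.single i 1) (by simp) (β := wt u)
    (by rw [e1]) (by rw [e1, e2]; exact h)
  rwa [e1, e2] at this

/-- first half of the description of the universal Markov basis -/
theorem markov_not_low (hAwt : ∀ u v, A u = A v → wt u = wt v)
    {G : Set (MvPolynomial σ k)} (hG : IsMinimalBinomialGeneratingSet (toricI k A) G)
    {u v : σ →₀ ℕ} (huv : bin k u v ∈ G) : ¬ lowCon A wt (wt u) u v := by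
  intro hlow
  obtain ⟨hb, hspan, hmin⟩ := hG
  have hA : A u = A v := lowCon_le_degCon A wt _ hlow
  set H : Set (MvPolynomial σ k) := G \ {bin k u v} with hH
  have hHG : H ⊂ G := Set.sdiff_singleton_ssubset.2 huv
  apply hmin H hHG
  have hHb : ∀ g ∈ H, ∃ u v : σ →₀ ℕ, g = bin k u v := fun g hg => hb g hg.1
  rw [span_eq_toricI_iff A H hHb]
  rw [span_eq_toricI_iff A G hb] at hspan
  set c := addConGen (relOf H) with hc
  have hle : c ≤ addConGen (relOf G) := by
    rw [hc, AddCon.addConGen_le]
    intro s t hst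
    exact AddConGen.Rel.of _ _ hst.1
  -- low pairs are in `c`
  let r : AddCon (σ →₀ ℕ) :=
    { r := fun p q => A p = A q ∧ (wt p < wt u → c p q)
      iseqv := {
        refl := fun p => ⟨rfl, fun _ => c.refl p⟩
        symm := fun {p q} h => ⟨h.1.symm, fun h' => c.symm (h.2 (by rwa [hAwt p q h.1]))⟩
        trans := fun {p q s} h h' => ⟨h.1.trans h'.1, fun hlt =>
          c.trans (h.2 hlt) (h'.2 (by rwa [← hAwt p q h.1]))⟩ }
      add' := fun {p q p' q'} h h' => ⟨by rw [map_add, map_add, h.1, h'.1], fun hlt => by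
        rw [map_add] at hlt
        exact c.add (h.2 (by omega)) (h'.2 (by omega))⟩ }
  have hr : addConGen (relOf G) ≤ r := by
    rw [AddCon.addConGen_le]
    intro s t hst
    have hA' : A s = A t := (hspan s t).2 (AddConGen.Rel.of _ _ hst)
    refine ⟨hA', fun hlt => ?_⟩
    by_cases hst' : s = t
    · subst hst'; exact c.refl _
    refine AddConGen.Rel.of _ _ ⟨hst, ?_⟩
    intro heq
    rcases bin_eq_bin hst' heq with ⟨rfl, rfl⟩ | ⟨rfl, rfl⟩
    · exact lt_irrefl _ hlt
    · rw [hAwt _ _ hA'] at hlt
      exact lt_irrefl _ hlt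
  have hlowc : lowCon A wt (wt u) ≤ c := by
    unfold lowCon
    rw [AddCon.addConGen_le]
    rintro p q ⟨hpq, hlt⟩
    exact (hr ((hspan p q).1 hpq)).2 hlt
  have huvc : c u v := hlowc hlow
  have hGc : addConGen (relOf G) ≤ c := by
    rw [AddCon.addConGen_le]
    intro s t hst
    by_cases hst' : s = t
    · subst hst'; exact c.refl _
    by_cases heq : bin k s t = bin k u v
    · rcases bin_eq_bin hst' heq with ⟨rfl, rfl⟩ | ⟨rfl, rfl⟩
      · exact huvc
      · exact c.symm huvc
    · exact AddConGen.Rel.of _ _ ⟨hst, heq⟩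
  intro p q
  rw [hspan p q]
  exact ⟨fun h => hGc h, fun h => hle h⟩

/-- choice of representatives compatible with two prescribed ones -/
theorem exists_rep {α : Type*} (S : Setoid α) {u v : α} (huv : ¬ S u v) :
    ∃ rep : α → α, (∀ p, S p (rep p)) ∧ (∀ p q, S p q → rep p = rep q) ∧ rep u = u ∧
      rep v = v := by
  classical
  refine ⟨fun p => if S p u then u else if S p v then v else (Quotient.mk S p).out,
    fun p => ?_, fun p q hpq => ?_, ?_, ?_⟩
  · dsimp only
    split_ifs with h1 h2
    · exact h1
    · exact h2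
    · exact S.symm (Quotient.mk_out (s := S) p)
  · have h1 : S p u ↔ S q u := ⟨fun h => S.trans (S.symm hpq) h, fun h => S.trans hpq h⟩
    have h2 : S p v ↔ S q v := ⟨fun h => S.trans (S.symm hpq) h, fun h => S.trans hpq h⟩
    have h3 : Quotient.mk S p = Quotient.mk S q := Quotient.sound hpq
    simp only [h1, h2, h3]
  · dsimp only
    rw [if_pos (S.refl u)]
  · dsimp only
    have : ¬ S v u := fun h => huv (S.symm h)
    rw [if_neg this, if_pos (S.refl v)]

/-- second half of the description of the universal Markov basis -/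
theorem exists_markov (hAwt : ∀ u v, A u = A v → wt u = wt v) (hwt : ∀ u, wt u = 0 → u = 0)
    {u v : σ →₀ ℕ} (hA : A u = A v) (huv : ¬ lowCon A wt (wt u) u v) :
    ∃ G : Set (MvPolynomial σ k), IsMinimalBinomialGeneratingSet (toricI k A) G ∧
      bin k u v ∈ G := by
  classical
  -- the component relation
  let S : Setoid (σ →₀ ℕ) :=
    { r := fun p q => A p = A q ∧ lowCon A wt (wt p) p q
      iseqv := {
        refl := fun p => ⟨rfl, (lowCon A wt (wt p)).refl p⟩
        symm := fun {p q} h => ⟨h.1.symm, by
          rw [← hAwt p q h.1]; exact (lowCon A wt (wt p)).symm h.2⟩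
        trans := fun {p q s} h h' => ⟨h.1.trans h'.1, by
          have h2 := h'.2
          rw [← hAwt p q h.1] at h2
          exact (lowCon A wt (wt p)).trans h.2 h2⟩ } }
  have hSdef : ∀ p q, S p q ↔ A p = A q ∧ lowCon A wt (wt p) p q := fun p q => Iff.rfl
  have hSuv : ¬ S u v := fun h => huv h.2
  obtain ⟨rep, hrep1, hrep2, hrepu, hrepv⟩ := exists_rep S hSuv
  have huv' : u ≠ v := by rintro rfl; exact hSuv (S.refl _)
  have hrepA : ∀ p, A (rep p) = A p := fun p => (hrep1 p).1.symm
  have hreprep : ∀ p, rep (rep p) = rep p := fun p => (hrep2 _ _ (hrep1 p)).symm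
  -- the root of a fibre
  obtain ⟨root, hroot1, hroot2, hroot3⟩ : ∃ root : D → (σ →₀ ℕ), (∀ p, A (root (A p)) = A p) ∧
      (∀ p, rep (root (A p)) = root (A p)) ∧ root (A v) = v := by
    refine ⟨fun b => if b = A v then v else if h : ∃ p, A p = b then rep h.choose else 0,
      fun p => ?_, fun p => ?_, ?_⟩
    · by_cases h : A p = A v
      · simp only [h, if_true]
      · have h' : ∃ q, A q = A p := ⟨p, rfl⟩
        simp only [h, if_false, dif_pos h']
        rw [hrepA]
        exact h'.choose_spec
    · by_cases h : A p = A v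
      · simp only [h, if_true]
        exact hrepv
      · have h' : ∃ q, A q = A p := ⟨p, rfl⟩
        simp only [h, if_false, dif_pos h']
        exact hreprep _
    · simp only [if_true]
  set G : Set (MvPolynomial σ k) :=
    {f | ∃ p, rep p ≠ root (A p) ∧ f = bin k (rep p) (root (A p))} with hG
  have hGb : ∀ g ∈ G, ∃ u v : σ →₀ ℕ, g = bin k u v := by
    rintro _ ⟨p, -, rfl⟩; exact ⟨_, _, rfl⟩
  refine ⟨G, ⟨hGb, ?_, ?_⟩, ⟨u, ?_, ?_⟩⟩
  · -- generating
    rw [span_eq_toricI_iff A G hGb]
    set c := addConGen (relOf G) with hc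
    have hcle : c ≤ degCon A := by
      rw [hc, AddCon.addConGen_le]
      intro s t hst
      obtain ⟨p, hne, heq⟩ := hst
      show A s = A t
      by_cases hst' : s = t
      · rw [hst']
      rcases bin_eq_bin hst' heq with ⟨rfl, rfl⟩ | ⟨rfl, rfl⟩
      · rw [hrepA, hroot1]
      · rw [hrepA, hroot1]
    have key : ∀ n : ℕ, ∀ p q, wt p = n → A p = A q → c p q := by
      intro n
      induction n using Nat.strong_induction_on with
      | _ n ih =>
        intro p q hp hpq
        have hlow : lowCon A wt n ≤ c := by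
          unfold lowCon
          rw [AddCon.addConGen_le]
          rintro s t ⟨hst, hlt⟩
          exact ih _ hlt s t rfl hst
        have h1 : ∀ s, wt s = n → c s (root (A s)) := by
          intro s hs
          have h2 : c s (rep s) := by
            have := (hrep1 s).2
            rw [hs] at this
            exact hlow this
          by_cases h3 : rep s = root (A s)
          · rwa [h3] at h2
          · exact c.trans h2 (AddConGen.Rel.of _ _ ⟨s, h3, rfl⟩)
        have hq : wt q = n := by rw [← hAwt p q hpq, hp]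
        have h4 := h1 p hp
        have h5 := h1 q hq
        rw [← hpq] at h5
        exact c.trans h4 (c.symm h5)
    exact fun p q => ⟨fun h => key _ p q rfl h, fun h => hcle h⟩
  · -- minimal
    intro H hHG hspan
    obtain ⟨g, hgG, hgH⟩ := Set.exists_of_ssubset hHG
    obtain ⟨p₀, hne₀, rfl⟩ := hgG
    have hHb : ∀ g ∈ H, ∃ u v : σ →₀ ℕ, g = bin k u v := fun g hg => hGb g (hHG.1 hg)
    rw [span_eq_toricI_iff A H hHb] at hspan
    have hadd : ∀ p q p' q' : σ →₀ ℕ, A p = A q → A p' = A q' → p ≠ 0 → p' ≠ 0 →
        S (p + p') (q + q') := by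
      intro p q p' q' h h' hp hp'
      have e1 : A (p + p') = A (q + q') := by rw [map_add, map_add, h, h']
      refine ⟨e1, ?_⟩
      have l1 : lowCon A wt (wt (p + p')) (p + p') (q + p') :=
        (lowCon A wt _).add (lowCon_of_lt A wt h (by
          rw [map_add]
          have : wt p' ≠ 0 := fun h => hp' (hwt _ h)
          omega)) ((lowCon A wt _).refl _)
      have l2 : lowCon A wt (wt (p + p')) (q + p') (q + q') :=
        (lowCon A wt _).add ((lowCon A wt _).refl _) (lowCon_of_lt A wt h' (by
          rw [map_add]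
          have : wt p ≠ 0 := fun h => hp (hwt _ h)
          omega))
      exact (lowCon A wt _).trans l1 l2
    have hzero : ∀ p q : σ →₀ ℕ, A p = A q → p = 0 → q = 0 := by
      intro p q h hp
      apply hwt
      rw [← hAwt p q h, hp, map_zero]
    set x₀ := rep p₀ with hx₀
    set y₀ := root (A p₀) with hy₀
    have hAx : A x₀ = A p₀ := hrepA _
    have hAy : A y₀ = A p₀ := hroot1 _
    have hrx : rep x₀ = x₀ := hreprep _
    have hry : rep y₀ = y₀ := hroot2 _
    have hSyx : ¬ S y₀ x₀ := by
      intro h
      have := hrep2 _ _ h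
      rw [hrx, hry] at this
      exact hne₀ this.symm
    let r : AddCon (σ →₀ ℕ) :=
      { r := fun p q => A p = A q ∧ (A p = A p₀ → (S p x₀ ↔ S q x₀))
        iseqv := {
          refl := fun p => ⟨rfl, fun _ => Iff.rfl⟩
          symm := fun {p q} h => ⟨h.1.symm, fun h' => (h.2 (h.1.trans h')).symm⟩
          trans := fun {p q s} h h' => ⟨h.1.trans h'.1, fun hb =>
            (h.2 hb).trans (h'.2 (h.1.symm.trans hb))⟩ }
        add' := fun {p q p' q'} h h' => by
          refine ⟨by rw [map_add, map_add, h.1, h'.1], fun hb => ?_⟩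
          by_cases hp : p = 0
          · have hq := hzero p q h.1 hp
            subst hp; subst hq
            rw [zero_add] at hb
            rw [zero_add, zero_add]
            exact h'.2 hb
          by_cases hp' : p' = 0
          · have hq' := hzero p' q' h'.1 hp'
            subst hp'; subst hq'
            rw [add_zero] at hb
            rw [add_zero, add_zero]
            exact h.2 hb
          have h3 : S (p + p') (q + q') := hadd p q p' q' h.1 h'.1 hp hp'
          exact ⟨fun h4 => S.trans (S.symm h3) h4, fun h4 => S.trans h3 h4⟩ }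
    have hr : addConGen (relOf H) ≤ r := by
      rw [AddCon.addConGen_le]
      intro s t hst
      have hstG : bin k s t ∈ G := hHG.1 hst
      obtain ⟨p, hne, heq⟩ := hstG
      by_cases hst' : s = t
      · subst hst'; exact r.refl _
      have hne2 : bin k (rep p) (root (A p)) ≠ bin k x₀ y₀ := by
        intro h
        apply hgH
        rw [← h, ← heq]
        exact hst
      have hrpq : r (rep p) (root (A p)) := by
        refine ⟨by rw [hrepA, hroot1], fun hb => ?_⟩
        rw [hrepA] at hb
        have e1 : root (A p) = y₀ := by rw [hb]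
        rw [e1]
        refine iff_of_false ?_ hSyx
        intro h
        apply hne2
        have e2 := hrep2 _ _ h
        rw [hreprep, hrx] at e2
        rw [e1, e2]
      rcases bin_eq_bin hst' heq with ⟨rfl, rfl⟩ | ⟨rfl, rfl⟩
      · exact hrpq
      · exact r.symm hrpq
    have h1 : r x₀ y₀ := hr ((hspan x₀ y₀).1 (by rw [hAx, hAy]))
    exact hSyx ((h1.2 hAx).1 (S.refl _))
  · rw [hrepu, hA, hroot3]; exact huv'
  · rw [hrepu, hA, hroot3]

end Pool.Agent.Lib.MP_1df74f_al
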